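import Pool.Agent.Lib.MP_ee37cd_co.Asm

/-!
# MP_ee37cd_co: Q1 is equivalent to the Borodin-Kostochka conjecture, for every Delta

A finite digraph is given by a finite set `S` of vertices of a type `V` and a relation `E` on `V`
without loops: its arcs are the pairs `(a, b)`, `a, b ∈ S`, with `E a b`.
-/

set_option autoImplicit false

namespace Pool.Agent.Results.MP_ee37cd_co.Equivalence

open Finset
open scoped Classical

/-- The number of out-neighbours of `v` in the digraph with vertex set `S`. -/
noncomputable def outdeg {V : Type} (E : V → V → Prop) (S : Finset V) (v : V) : ℕ :=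
  (S.filter (fun w => E v w)).card

/-- The number of in-neighbours of `v` in the digraph with vertex set `S`. -/
noncomputable def indeg {V : Type} (E : V → V → Prop) (S : Finset V) (v : V) : ℕ :=
  (S.filter (fun w => E w v)).card

/-- The digraph induced on `A` has no directed cycle (no nontrivial closed walk). -/
def Acyc {V : Type} (E : V → V → Prop) (A : Finset V) : Prop :=
  ∀ v, ¬ Relation.TransGen (fun a b => E a b ∧ a ∈ A ∧ b ∈ A) v v

/-- The digraph induced on `S` has a dicolouring with `k` colours. -/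
def Dicol {V : Type} (E : V → V → Prop) (S : Finset V) (k : ℕ) : Prop :=
  ∃ f : V → ℕ, (∀ v ∈ S, f v < k) ∧
    ∀ i : ℕ, ∀ A : Finset V, (∀ v ∈ A, v ∈ S ∧ f v = i) → Acyc E A

/-- `B` is a biclique. -/
def Bic {V : Type} (E : V → V → Prop) (B : Finset V) : Prop := ∀ a ∈ B, ∀ b ∈ B, a ≠ b → E a b

/-- Both arcs between `a` and `b` are present. -/
def Dg {V : Type} (E : V → V → Prop) (a b : V) : Prop := E a b ∧ E b a

/-- `a, b, c` and `X` form a copy of `H_k`: a directed triangle completely joined to a biclique with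
`k - 2` vertices. -/
def IsH {V : Type} (E : V → V → Prop) (k : ℕ) (a b c : V) (X : Finset V) : Prop :=
  X.card + 2 = k ∧ Bic E X ∧ E a b ∧ E b c ∧ E c a ∧ ∀ x ∈ X, Dg E a x ∧ Dg E b x ∧ Dg E c x

/-- The digraph induced on `S` contains `H_k`. -/
def HasH {V : Type} (E : V → V → Prop) (S : Finset V) (k : ℕ) : Prop :=
  ∃ (a b c : V) (X : Finset V), a ∈ S ∧ b ∈ S ∧ c ∈ S ∧ X ⊆ S ∧ IsH E k a b c X

/-- The hypotheses of Q1: geometric mean degree at most `D`, biclique number at most `D - 1`. -/
def Hyp {V : Type} (E : V → V → Prop) (S : Finset V) (D : ℕ) : Prop :=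
  (∀ v, ¬ E v v) ∧
    (∀ v ∈ S, Real.sqrt ((outdeg E S v : ℝ) * (indeg E S v : ℝ)) ≤ D) ∧
    ∀ B ⊆ S, Bic E B → B.card ≤ D - 1

/-- The assertion of Q1 for the parameter `D` and all finite digraphs. -/
def Q1 (D : ℕ) : Prop :=
  ∀ (V : Type) (E : V → V → Prop) (S : Finset V), Hyp E S D → Dicol E S (D - 1) ∨ HasH E S D

/-- The assertion of Borodin and Kostochka for the parameter `D` and all finite graphs: maximum
degree at most `D` and no complete subgraph on `D` vertices imply colourability with `D - 1`
colours. -/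
def BorodinKostochka (D : ℕ) : Prop :=
  ∀ (V : Type) [Fintype V] (G : SimpleGraph V) [DecidableRel G.Adj], (∀ v, G.degree v ≤ D) →
    G.CliqueFree D → G.Colorable (D - 1)

/-- For every `D ≥ 9` the assertion of Q1 for `D` is equivalent to the assertion of the
Borodin-Kostochka conjecture for `D`. -/
theorem result (D : ℕ) (hD : 9 ≤ D) : Q1 D ↔ BorodinKostochka D := by
  refine ⟨fun h => ?_, fun h V E S hyp => ?_⟩
  · refine Lib.MP_ee37cd_co.BK.s_EQ2 D hD ?_
    intro V E S h1 h2 h3
    exact h V E S ⟨h1, h2, h3⟩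
  · exact Lib.MP_ee37cd_co.BK.eq1 D hD h V E S hyp.1 hyp.2.1 hyp.2.2

end Pool.Agent.Results.MP_ee37cd_co.Equivalence
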