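import Mathlib

/-!
# MP_ee37cd_co: the directed Borodin-Kostochka problem reduces to the case nine

A finite digraph is given by a finite set `S` of vertices of a type `V` and a relation `E` on `V`
without loops: its arcs are the pairs `(a, b)`, `a, b ∈ S`, with `E a b`.
-/

set_option autoImplicit false

namespace Pool.Agent.Results.MP_ee37cd_co.Reduction

open Finset

variable {V : Type}

/-- The number of out-neighbours of `v` in the digraph with vertex set `S`. -/
noncomputable def outdeg (E : V → V → Prop) (S : Finset V) (v : V) : ℕ :=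
  open Classical in (S.filter (fun w => E v w)).card

/-- The number of in-neighbours of `v` in the digraph with vertex set `S`. -/
noncomputable def indeg (E : V → V → Prop) (S : Finset V) (v : V) : ℕ :=
  open Classical in (S.filter (fun w => E w v)).card

/-- The digraph induced on `A` has no directed cycle (no nontrivial closed walk). -/
def Acyc (E : V → V → Prop) (A : Finset V) : Prop :=
  ∀ v, ¬ Relation.TransGen (fun a b => E a b ∧ a ∈ A ∧ b ∈ A) v v

/-- The digraph induced on `S` has a dicolouring with `k` colours. -/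
def Dicol (E : V → V → Prop) (S : Finset V) (k : ℕ) : Prop :=
  ∃ f : V → ℕ, (∀ v ∈ S, f v < k) ∧
    ∀ i : ℕ, ∀ A : Finset V, (∀ v ∈ A, v ∈ S ∧ f v = i) → Acyc E A

/-- Both arcs between `a` and `b` are present. -/
def Dg (E : V → V → Prop) (a b : V) : Prop := E a b ∧ E b a

/-- `B` is a biclique. -/
def Bic (E : V → V → Prop) (B : Finset V) : Prop := ∀ a ∈ B, ∀ b ∈ B, a ≠ b → E a b

/-- `a, b, c` and `X` form a copy of `H_k`: a directed triangle completely joined to a biclique with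
`k - 2` vertices. -/
def IsH (E : V → V → Prop) (k : ℕ) (a b c : V) (X : Finset V) : Prop :=
  X.card + 2 = k ∧ Bic E X ∧ E a b ∧ E b c ∧ E c a ∧ ∀ x ∈ X, Dg E a x ∧ Dg E b x ∧ Dg E c x

/-- The digraph induced on `S` contains `H_k`. -/
def HasH (E : V → V → Prop) (S : Finset V) (k : ℕ) : Prop :=
  ∃ (a b c : V) (X : Finset V), a ∈ S ∧ b ∈ S ∧ c ∈ S ∧ X ⊆ S ∧ IsH E k a b c X

/-- The digraph induced on `S` is a counterexample to the assertion with the parameter `k`. -/
def Bad (E : V → V → Prop) (S : Finset V) (k : ℕ) : Prop :=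
  (∀ v ∈ S, Real.sqrt ((outdeg E S v : ℝ) * (indeg E S v : ℝ)) ≤ k) ∧
    (∀ B ⊆ S, Bic E B → B.card ≤ k - 1) ∧ ¬ HasH E S k ∧ ¬ Dicol E S (k - 1)

/-- The assertion of Q1 for a class `P` of digraphs and the parameter `k`. -/
def Q1 (P : (V : Type) → (V → V → Prop) → Finset V → Prop) (k : ℕ) : Prop :=
  ∀ (V : Type) (E : V → V → Prop) (S : Finset V), (∀ v, ¬ E v v) → P V E S →
    (∀ v ∈ S, Real.sqrt ((outdeg E S v : ℝ) * (indeg E S v : ℝ)) ≤ k) →
    (∀ B ⊆ S, Bic E B → B.card ≤ k - 1) → Dicol E S (k - 1) ∨ HasH E S k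

section basic

variable {E : V → V → Prop}

theorem Dg.symm {a b : V} (h : Dg E a b) : Dg E b a := ⟨h.2, h.1⟩

theorem Dg.ne (hE : ∀ v, ¬ E v v) {a b : V} (h : Dg E a b) : a ≠ b := by
  rintro rfl
  exact hE _ h.1

theorem Bic.dg {B : Finset V} (h : Bic E B) {a b : V} (ha : a ∈ B) (hb : b ∈ B) (hab : a ≠ b) :
    Dg E a b := ⟨h a ha b hb hab, h b hb a ha hab.symm⟩

theorem tg_mono {r p : V → V → Prop} (h : ∀ a b, r a b → p a b) {x y : V}
    (hx : Relation.TransGen r x y) : Relation.TransGen p x y := by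
  induction hx with
  | single h1 => exact Relation.TransGen.single (h _ _ h1)
  | tail _ h1 ih => exact ih.tail (h _ _ h1)

theorem Acyc.mono {A B : Finset V} (h : Acyc E B) (hAB : A ⊆ B) : Acyc E A := by
  intro v hv
  exact h v (tg_mono (fun a b ⟨h1, h2, h3⟩ => ⟨h1, hAB h2, hAB h3⟩) hv)

theorem acyc_empty : Acyc E (∅ : Finset V) := by
  intro v hv
  obtain ⟨b, hb, -⟩ := Relation.TransGen.head'_iff.mp hv
  exact absurd hb.2.1 (Finset.notMem_empty _)

theorem not_acyc_digon {A : Finset V} {a b : V} (ha : a ∈ A) (hb : b ∈ A) (h : Dg E a b) :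
    ¬ Acyc E A := by
  intro hA
  exact hA a (Relation.TransGen.tail (Relation.TransGen.single ⟨h.1, ha, hb⟩) ⟨h.2, hb, ha⟩)

theorem not_acyc_tri {A : Finset V} {a b c : V} (ha : a ∈ A) (hb : b ∈ A) (hc : c ∈ A)
    (h1 : E a b) (h2 : E b c) (h3 : E c a) : ¬ Acyc E A := by
  intro hA
  exact hA a (((Relation.TransGen.single ⟨h1, ha, hb⟩).tail ⟨h2, hb, hc⟩).tail ⟨h3, hc, ha⟩)

/-- A vertex without out-neighbours can be added to an acyclic set. -/
theorem acyc_insert_out [DecidableEq V] (hE : ∀ v, ¬ E v v) {A : Finset V} (hA : Acyc E A) {v : V}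
    (hv : ∀ w ∈ A, ¬ E v w) : Acyc E (insert v A) := by
  have key : ∀ x y, Relation.TransGen (fun a b => E a b ∧ a ∈ insert v A ∧ b ∈ insert v A) x y →
      y ≠ v → Relation.TransGen (fun a b => E a b ∧ a ∈ A ∧ b ∈ A) x y := by
    intro x y h
    induction h with
    | single h =>
      rename_i y
      intro hy
      have h1 : y ∈ A := (Finset.mem_insert.mp h.2.2).resolve_left hy
      have h2 : x ∈ A := by
        refine (Finset.mem_insert.mp h.2.1).resolve_left ?_
        rintro rfl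
        exact hv _ h1 h.1
      exact Relation.TransGen.single ⟨h.1, h2, h1⟩
    | tail h' h ih =>
      rename_i b y
      intro hy
      have h1 : y ∈ A := (Finset.mem_insert.mp h.2.2).resolve_left hy
      have hb : b ≠ v := by
        rintro rfl
        exact hv _ h1 h.1
      have h2 : b ∈ A := (Finset.mem_insert.mp h.2.1).resolve_left hb
      exact (ih hb).tail ⟨h.1, h2, h1⟩
  intro x hx
  by_cases hxv : x = v
  · subst hxv
    obtain ⟨b, hb, -⟩ := Relation.TransGen.head'_iff.mp hx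
    rcases Finset.mem_insert.mp hb.2.2 with h | h
    · exact hE _ (h ▸ hb.1)
    · exact hv _ h hb.1
  · exact hA x (key x x hx hxv)

/-- A vertex without in-neighbours can be added to an acyclic set. -/
theorem acyc_insert_in [DecidableEq V] (hE : ∀ v, ¬ E v v) {A : Finset V} (hA : Acyc E A) {v : V}
    (hv : ∀ w ∈ A, ¬ E w v) : Acyc E (insert v A) := by
  have h1 : Acyc (fun a b => E b a) A := by
    intro x hx
    refine hA x ?_
    rw [← Relation.transGen_swap] at hx
    exact tg_mono (fun a b ⟨h1, h2, h3⟩ => ⟨h1, h3, h2⟩) hx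
  have h2 := acyc_insert_out (E := fun a b => E b a) hE h1 hv
  intro x hx
  refine h2 x ?_
  rw [← Relation.transGen_swap] at hx
  exact tg_mono (fun a b ⟨h1, h2, h3⟩ => ⟨h1, h3, h2⟩) hx

theorem Dicol.mono {S T : Finset V} {k : ℕ} (h : Dicol E T k) (hST : S ⊆ T) : Dicol E S k := by
  obtain ⟨f, h1, h2⟩ := h
  exact ⟨f, fun v hv => h1 v (hST hv), fun i A hA => h2 i A fun v hv =>
    ⟨hST (hA v hv).1, (hA v hv).2⟩⟩

/-- Adding an acyclic set as a new colour class. -/
theorem Dicol.add {S T A : Finset V} {k : ℕ} (h : Dicol E T k) (hA : Acyc E A)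
    (hS : ∀ v ∈ S, v ∈ T ∨ v ∈ A) : Dicol E S (k + 1) := by
  classical
  obtain ⟨f, h1, h2⟩ := h
  refine ⟨fun v => if v ∈ A then k else f v, ?_, ?_⟩
  · intro v hv
    by_cases hvA : v ∈ A
    · simp [hvA]
    · simp only [hvA, if_false]
      have := h1 v ((hS v hv).resolve_right hvA)
      omega
  · intro i B hB
    by_cases hBA : ∀ v ∈ B, v ∈ A
    · exact hA.mono hBA
    · push Not at hBA
      obtain ⟨w, hw, hwA⟩ := hBA
      have h3 := hB w hw
      simp only [hwA, if_false] at h3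
      have h4 := h1 w ((hS w h3.1).resolve_right hwA)
      have hik : i ≠ k := by omega
      refine h2 i B fun v hv => ?_
      have h5 := hB v hv
      by_cases hvA : v ∈ A
      · simp only [hvA, if_true] at h5
        exact absurd h5.2.symm hik
      · simp only [hvA, if_false] at h5
        exact ⟨(hS v h5.1).resolve_right hvA, h5.2⟩

theorem Dicol.le {S : Finset V} {k m : ℕ} (h : Dicol E S k) (hkm : k ≤ m) : Dicol E S m := by
  obtain ⟨f, h1, h2⟩ := h
  exact ⟨f, fun v hv => (h1 v hv).trans_le hkm, h2⟩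

theorem dicol_empty (k : ℕ) : Dicol E (∅ : Finset V) k := by
  refine ⟨fun _ => 0, fun v hv => absurd hv (Finset.notMem_empty v), fun i A hA => ?_⟩
  have : A = ∅ := Finset.eq_empty_of_forall_notMem fun v hv =>
    Finset.notMem_empty v (hA v hv).1
  rw [this]
  exact acyc_empty

/-- A copy of the biclique on `m` vertices or of `H_m`. -/
def Mem (E : V → V → Prop) (S : Finset V) (m : ℕ) (M : Finset V) : Prop :=
  M ⊆ S ∧ ((Bic E M ∧ M.card = m) ∨
    ∃ (a b c : V) (X : Finset V), IsH E m a b c X ∧ ∀ w, w ∈ M ↔ w = a ∨ w = b ∨ w = c ∨ w ∈ X)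

theorem IsH.rot {m : ℕ} {a b c : V} {X : Finset V} (h : IsH E m a b c X) : IsH E m b c a X := by
  obtain ⟨h1, h2, h3, h4, h5, h6⟩ := h
  exact ⟨h1, h2, h4, h5, h3, fun x hx => ⟨(h6 x hx).2.1, (h6 x hx).2.2, (h6 x hx).1⟩⟩

theorem dicol_dg {S : Finset V} {f : V → ℕ}
    (hf : ∀ i : ℕ, ∀ A : Finset V, (∀ v ∈ A, v ∈ S ∧ f v = i) → Acyc E A) {a b : V}
    (ha : a ∈ S) (hb : b ∈ S) (h : Dg E a b) : f a ≠ f b := by
  classical
  intro hab
  refine not_acyc_digon (A := {a, b}) (by simp) (by simp) h (hf (f a) _ ?_)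
  intro v hv
  rw [Finset.mem_insert, Finset.mem_singleton] at hv
  rcases hv with rfl | rfl
  · exact ⟨ha, rfl⟩
  · exact ⟨hb, hab.symm⟩

/-- Every colour appears on every copy. -/
theorem mem_meets {S : Finset V} {m : ℕ} {f : V → ℕ} (hf0 : ∀ v ∈ S, f v < m)
    (hf : ∀ i : ℕ, ∀ A : Finset V, (∀ v ∈ A, v ∈ S ∧ f v = i) → Acyc E A) {M : Finset V}
    (hM : Mem E S m M) {i : ℕ} (hi : i < m) : ∃ w ∈ M, f w = i := by
  classical
  by_contra hcon
  push Not at hcon
  obtain ⟨hMS, hM⟩ := hM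
  have hmaps : ∀ w ∈ M, f w ∈ (Finset.range m).erase i := fun w hw =>
    Finset.mem_erase.mpr ⟨hcon w hw, Finset.mem_range.mpr (hf0 w (hMS hw))⟩
  have hc : ((Finset.range m).erase i).card = m - 1 := by
    rw [Finset.card_erase_of_mem (Finset.mem_range.mpr hi), Finset.card_range]
  rcases hM with ⟨hB, hcard⟩ | ⟨a, b, c, X, hH, hMem⟩
  · obtain ⟨x, hx, y, hy, hxy, hfxy⟩ := Finset.exists_ne_map_eq_of_card_lt_of_maps_to
      (s := M) (t := (Finset.range m).erase i) (by omega) hmaps
    exact dicol_dg hf (hMS hx) (hMS hy) (hB.dg hx hy hxy) hfxy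
  · obtain ⟨h1, h2, h3, h4, h5, h6⟩ := hH
    have hXM : ∀ x ∈ X, x ∈ M := fun x hx => (hMem x).mpr (Or.inr (Or.inr (Or.inr hx)))
    have haM : a ∈ M := (hMem a).mpr (Or.inl rfl)
    have hbM : b ∈ M := (hMem b).mpr (Or.inr (Or.inl rfl))
    have hcM : c ∈ M := (hMem c).mpr (Or.inr (Or.inr (Or.inl rfl)))
    have hinj : ∀ x ∈ X, ∀ y ∈ X, f x = f y → x = y := by
      intro x hx y hy hxy
      by_contra hne
      exact dicol_dg hf (hMS (hXM x hx)) (hMS (hXM y hy)) (h2.dg hx hy hne) hxy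
    have hcX : (X.image f).card = X.card := Finset.card_image_of_injOn fun x hx y hy hxy =>
      hinj x hx y hy hxy
    set R := (Finset.range m).erase i \ X.image f with hR
    have hRc : R.card ≤ 1 := by
      rw [hR, Finset.card_sdiff_of_subset, hc, hcX]
      · omega
      · intro z hz
        obtain ⟨x, hx, rfl⟩ := Finset.mem_image.mp hz
        exact hmaps x (hXM x hx)
    have hout : ∀ z ∈ M, (∀ x ∈ X, Dg E z x) → f z ∈ R := by
      intro z hz hzx
      rw [hR, Finset.mem_sdiff]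
      refine ⟨hmaps z hz, ?_⟩
      intro hcon2
      obtain ⟨x, hx, hxz⟩ := Finset.mem_image.mp hcon2
      exact dicol_dg hf (hMS hz) (hMS (hXM x hx)) (hzx x hx) hxz.symm
    have ha := hout a haM fun x hx => (h6 x hx).1
    have hb := hout b hbM fun x hx => (h6 x hx).2.1
    have hc' := hout c hcM fun x hx => (h6 x hx).2.2
    have hab := Finset.card_le_one.mp hRc _ ha _ hb
    have hac := Finset.card_le_one.mp hRc _ ha _ hc'
    refine not_acyc_tri (A := {a, b, c}) (by simp) (by simp) (by simp) h3 h4 h5 (hf (f a) _ ?_)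
    intro v hv
    rw [Finset.mem_insert, Finset.mem_insert, Finset.mem_singleton] at hv
    rcases hv with rfl | rfl | rfl
    · exact ⟨hMS haM, rfl⟩
    · exact ⟨hMS hbM, hab.symm⟩
    · exact ⟨hMS hcM, hac.symm⟩

end basic

section cops

variable {E : V → V → Prop} {S : Finset V} {k : ℕ}

/-- bound for the number of vertices joined to a vertex by both arcs -/
def DgB (E : V → V → Prop) (S : Finset V) (k : ℕ) : Prop :=
  ∀ u ∈ S, ∀ B ⊆ S, (∀ b ∈ B, Dg E u b) → B.card ≤ k

theorem Bic.insert [DecidableEq V] {B : Finset V} (h : Bic E B) {y : V} (hy : ∀ x ∈ B, Dg E y x) :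
    Bic E (insert y B) := by
  intro p hp q hq hpq
  rw [Finset.mem_insert] at hp hq
  rcases hp with rfl | hp
  · rcases hq with rfl | hq
    · exact absurd rfl hpq
    · exact (hy q hq).1
  · rcases hq with rfl | hq
    · exact (hy p hp).2
    · exact h p hp q hq hpq

/-- the vertex set of a copy -/
def HS [DecidableEq V] (a b t : V) (X : Finset V) : Finset V := insert a (insert b (insert t X))

theorem mem_HS [DecidableEq V] {a b t : V} {X : Finset V} {w : V} :
    w ∈ HS a b t X ↔ w = a ∨ w = b ∨ w = t ∨ w ∈ X := by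
  simp [HS]

theorem IsH.notMem (hE : ∀ v, ¬ E v v) {m : ℕ} {a b t : V} {X : Finset V} (h : IsH E m a b t X) :
    a ∉ X ∧ b ∉ X ∧ t ∉ X := by
  obtain ⟨h1, h2, h3, h4, h5, h6⟩ := h
  exact ⟨fun hx => hE _ (h6 _ hx).1.1, fun hx => hE _ (h6 _ hx).2.1.1,
    fun hx => hE _ (h6 _ hx).2.2.1⟩

theorem IsH.ne (hE : ∀ v, ¬ E v v) {m : ℕ} {a b t : V} {X : Finset V} (h : IsH E m a b t X) :
    a ≠ b ∧ b ≠ t ∧ a ≠ t := by
  obtain ⟨h1, h2, h3, h4, h5, h6⟩ := h
  refine ⟨?_, ?_, ?_⟩
  · rintro rfl; exact hE _ h3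
  · rintro rfl; exact hE _ h4
  · rintro rfl; exact hE _ h5

theorem card_HS [DecidableEq V] (hE : ∀ v, ¬ E v v) {m : ℕ} {a b t : V} {X : Finset V}
    (h : IsH E m a b t X) : (HS a b t X).card = m + 1 := by
  obtain ⟨n1, n2, n3⟩ := h.notMem hE
  obtain ⟨e1, e2, e3⟩ := h.ne hE
  have h1 := h.1
  rw [HS, Finset.card_insert_of_notMem (by simp [e1, e3, n1]),
    Finset.card_insert_of_notMem (by simp [e2, n2]), Finset.card_insert_of_notMem n3]
  omega

/-- a vertex of the clique part is joined to all other vertices -/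
theorem IsH.dg [DecidableEq V] {m : ℕ} {a b t : V} {X : Finset V} (h : IsH E m a b t X)
    {x w : V} (hx : x ∈ X) (hw : w ∈ HS a b t X) (hxw : w ≠ x) : Dg E x w := by
  obtain ⟨h1, h2, h3, h4, h5, h6⟩ := h
  rw [mem_HS] at hw
  rcases hw with rfl | rfl | rfl | hw
  · exact (h6 x hx).1.symm
  · exact (h6 x hx).2.1.symm
  · exact (h6 x hx).2.2.symm
  · exact h2.dg hx hw hxw.symm

/-- at most one vertex outside the copy -/
theorem out_le_one [DecidableEq V] (hE : ∀ v, ¬ E v v) (hk : 1 ≤ k) (hB : DgB E S k) {a b t : V}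
    {X : Finset V} (hS : HS a b t X ⊆ S) (hH : IsH E (k - 1) a b t X) {x : V} (hx : x ∈ X)
    {Q : Finset V} (hQS : Q ⊆ S) (hQ : ∀ q ∈ Q, q ≠ x → Dg E x q) :
    (Q \ HS a b t X).card ≤ 1 := by
  have hxH : x ∈ HS a b t X := mem_HS.mpr (Or.inr (Or.inr (Or.inr hx)))
  have h1 := hB x (hS hxH) ((Q ∪ HS a b t X).erase x)
    ((Finset.erase_subset _ _).trans (Finset.union_subset hQS hS)) (by
      intro w hw
      rw [Finset.mem_erase, Finset.mem_union] at hw
      rcases hw.2 with h | h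
      · exact hQ w h hw.1
      · exact hH.dg hx h hw.1)
  rw [Finset.card_erase_of_mem (Finset.mem_union_right _ hxH), ← Finset.card_sdiff_add_card,
    card_HS hE hH] at h1
  omega

theorem tri_perm {a' b' c' a b y : V} (h1 : E a' b') (h2 : E b' c') (h3 : E c' a')
    (hba : ¬ E b a) (hab : a ≠ b) (hya : y ≠ a) (hyb : y ≠ b)
    (ha : a = a' ∨ a = b' ∨ a = c') (hb : b = a' ∨ b = b' ∨ b = c')
    (hy : y = a' ∨ y = b' ∨ y = c') : E b y ∧ E y a := by
  rcases ha with rfl | rfl | rfl <;> rcases hb with rfl | rfl | rfl <;>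
    rcases hy with rfl | rfl | rfl <;> simp_all

theorem tri_third {a' b' c' a b y w : V} (hab : a ≠ b) (hya : y ≠ a) (hyb : y ≠ b)
    (ha : a = a' ∨ a = b' ∨ a = c') (hb : b = a' ∨ b = b' ∨ b = c')
    (hy : y = a' ∨ y = b' ∨ y = c') (hw : w = a' ∨ w = b' ∨ w = c') :
    w = a ∨ w = b ∨ w = y := by
  rcases ha with rfl | rfl | rfl <;> rcases hb with rfl | rfl | rfl <;>
    rcases hy with rfl | rfl | rfl <;> rcases hw with rfl | rfl | rfl <;> simp_all

theorem stage1 [DecidableEq V] (hE : ∀ v, ¬ E v v) (hk : 8 ≤ k) (hB : DgB E S k) {a b t : V}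
    {X : Finset V} (hS : HS a b t X ⊆ S) (hH : IsH E (k - 1) a b t X) (hba : ¬ E b a)
    {u v : V} (hu : u ∈ X) (hv : v ∈ X) {M : Finset V} (hM : Mem E S (k - 1) M)
    (huM : u ∈ M) (hvM : v ∉ M) :
    ∃ y ∈ S, y ∉ HS a b t X ∧ (∀ x ∈ X, x ≠ v → Dg E y x) ∧
      ((Dg E y a ∧ Dg E y b ∧ Dg E y t) ∨
        (∃ s, (s = a ∨ s = b) ∧ Dg E s t ∧ Dg E y s ∧ Dg E y t) ∨
        (E b y ∧ E y a ∧ Dg E t a ∧ Dg E t b ∧ Dg E t y)) := by
  obtain ⟨hMS, hM⟩ := hM
  obtain ⟨n1, n2, n3⟩ := hH.notMem hE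
  obtain ⟨e1, e2, e3⟩ := hH.ne hE
  have hcH := card_HS hE hH
  have hvH : v ∈ HS a b t X := mem_HS.mpr (Or.inr (Or.inr (Or.inr hv)))
  have haH : a ∈ HS a b t X := mem_HS.mpr (Or.inl rfl)
  have hbH : b ∈ HS a b t X := mem_HS.mpr (Or.inr (Or.inl rfl))
  have htH : t ∈ HS a b t X := mem_HS.mpr (Or.inr (Or.inr (Or.inl rfl)))
  have hXH : ∀ x ∈ X, x ∈ HS a b t X := fun x hx => mem_HS.mpr (Or.inr (Or.inr (Or.inr hx)))
  have hsplit : (M \ HS a b t X).card + (M ∩ HS a b t X).card = M.card :=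
    Finset.card_sdiff_add_card_inter M _
  rcases hM with ⟨hBic, hcard⟩ | ⟨a', b', c', X', hH', hmem⟩
  · -- a biclique
    have h1 : (M \ HS a b t X).card ≤ 1 := out_le_one hE (by omega) hB hS hH hu hMS
      fun q hq hqu => hBic.dg huM hq hqu.symm
    obtain ⟨s, hs, hsM⟩ : ∃ s, (s = a ∨ s = b) ∧ s ∉ M := by
      by_contra hcon
      push Not at hcon
      exact hba (hBic b (hcon b (Or.inr rfl)) a (hcon a (Or.inl rfl)) e1.symm)
    have hsH : s ∈ HS a b t X := by rcases hs with rfl | rfl <;> assumption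
    have hsX : s ∉ X := by rcases hs with rfl | rfl <;> assumption
    have hst : s ≠ t := by rcases hs with rfl | rfl <;> assumption
    have hsv : s ≠ v := by rintro rfl; exact hsX hv
    have hsub : M ∩ HS a b t X ⊆ ((HS a b t X).erase v).erase s := by
      intro w hw
      rw [Finset.mem_inter] at hw
      rw [Finset.mem_erase, Finset.mem_erase]
      refine ⟨?_, ?_, hw.2⟩
      · rintro rfl; exact hsM hw.1
      · rintro rfl; exact hvM hw.1
    have hc2 : (((HS a b t X).erase v).erase s).card = k - 2 := by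
      rw [Finset.card_erase_of_mem (Finset.mem_erase.mpr ⟨hsv, hsH⟩),
        Finset.card_erase_of_mem hvH, hcH]
      omega
    have hle := Finset.card_le_card hsub
    have heq : M ∩ HS a b t X = ((HS a b t X).erase v).erase s :=
      Finset.eq_of_subset_of_card_le hsub (by omega)
    have hin : ∀ w ∈ HS a b t X, w ≠ v → w ≠ s → w ∈ M := by
      intro w hw h2 h3
      have h4 : w ∈ M ∩ HS a b t X := by
        rw [heq, Finset.mem_erase, Finset.mem_erase]
        exact ⟨h3, h2, hw⟩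
      exact (Finset.mem_inter.mp h4).1
    have hpos : 0 < (M \ HS a b t X).card := by omega
    obtain ⟨y, hy⟩ := Finset.card_pos.mp hpos
    rw [Finset.mem_sdiff] at hy
    obtain ⟨hyM, hyH⟩ := hy
    have hdg : ∀ w ∈ HS a b t X, w ≠ v → w ≠ s → Dg E y w := by
      intro w hw h2 h3
      refine hBic.dg hyM (hin w hw h2 h3) ?_
      rintro rfl
      exact hyH hw
    have htv : t ≠ v := by rintro rfl; exact n3 hv
    refine ⟨y, hMS hyM, hyH, ?_, Or.inr (Or.inl ?_)⟩
    · intro x hx hxv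
      refine hdg x (hXH x hx) hxv ?_
      rintro rfl
      exact hsX hx
    · rcases hs with rfl | rfl
      · -- `s = a` is missing, use `b`
        have hbv : b ≠ v := by rintro rfl; exact n2 hv
        exact ⟨b, Or.inr rfl, hBic.dg (hin b hbH hbv e1.symm) (hin t htH htv e3.symm) e2,
          hdg b hbH hbv e1.symm, hdg t htH htv e3.symm⟩
      · have hav : a ≠ v := by rintro rfl; exact n1 hv
        exact ⟨a, Or.inl rfl, hBic.dg (hin a haH hav e1) (hin t htH htv e2.symm) e3,
          hdg a haH hav e1, hdg t htH htv e2.symm⟩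
  · -- a copy of `H`
    have hMeq : M = HS a' b' c' X' := by
      ext w
      rw [hmem, mem_HS]
    have hcM : M.card = k := by
      rw [hMeq, card_HS hE hH']
      omega
    have hX'M : ∀ x ∈ X', x ∈ M := fun x hx => (hmem x).mpr (Or.inr (Or.inr (Or.inr hx)))
    have hdgM : ∀ x ∈ X', ∀ w ∈ M, w ≠ x → Dg E x w := by
      intro x hx w hw hwx
      rw [hMeq] at hw
      exact hH'.dg hx hw hwx
    obtain ⟨x, hxX, hxX'⟩ : ∃ x, x ∈ X ∧ x ∈ X' := by
      by_cases huX' : u ∈ X'
      · exact ⟨u, hu, huX'⟩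
      · have h1 : (X' \ HS a b t X).card ≤ 1 := out_le_one hE (by omega) hB hS hH hu
          (fun q hq => hMS (hX'M q hq)) fun q hq hqu => (hdgM q hq u huM hqu.symm).symm
        have h2 : (X' \ HS a b t X).card + (X' ∩ HS a b t X).card = X'.card :=
          Finset.card_sdiff_add_card_inter X' _
        have h3 := hH'.1
        by_contra hcon
        push Not at hcon
        have h4 : X' ∩ HS a b t X ⊆ {a, b, t} := by
          intro w hw
          rw [Finset.mem_inter, mem_HS] at hw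
          simp only [Finset.mem_insert, Finset.mem_singleton]
          rcases hw.2 with h | h | h | h
          · exact Or.inl h
          · exact Or.inr (Or.inl h)
          · exact Or.inr (Or.inr h)
          · exact absurd hw.1 (hcon w h)
        have h5 := Finset.card_le_card h4
        have h6 : ({a, b, t} : Finset V).card ≤ 3 := Finset.card_le_three
        omega
    have h1 : (M \ HS a b t X).card ≤ 1 := out_le_one hE (by omega) hB hS hH hxX hMS
      fun q hq hqx => hdgM x hxX' q hq hqx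
    have hsub : M ∩ HS a b t X ⊆ (HS a b t X).erase v := by
      intro w hw
      rw [Finset.mem_inter] at hw
      rw [Finset.mem_erase]
      refine ⟨?_, hw.2⟩
      rintro rfl
      exact hvM hw.1
    have hc2 : ((HS a b t X).erase v).card = k - 1 := by
      rw [Finset.card_erase_of_mem hvH, hcH]
      omega
    have hle := Finset.card_le_card hsub
    have heq : M ∩ HS a b t X = (HS a b t X).erase v :=
      Finset.eq_of_subset_of_card_le hsub (by omega)
    have hin : ∀ w ∈ HS a b t X, w ≠ v → w ∈ M := by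
      intro w hw h2
      have h4 : w ∈ M ∩ HS a b t X := by
        rw [heq, Finset.mem_erase]
        exact ⟨h2, hw⟩
      exact (Finset.mem_inter.mp h4).1
    have hpos : 0 < (M \ HS a b t X).card := by omega
    obtain ⟨y, hy⟩ := Finset.card_pos.mp hpos
    rw [Finset.mem_sdiff] at hy
    obtain ⟨hyM, hyH⟩ := hy
    have hav : a ≠ v := by rintro rfl; exact n1 hv
    have hbv : b ≠ v := by rintro rfl; exact n2 hv
    have htv : t ≠ v := by rintro rfl; exact n3 hv
    have haM := hin a haH hav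
    have hbM := hin b hbH hbv
    have htM := hin t htH htv
    have hya : y ≠ a := by rintro rfl; exact hyH haH
    have hyb : y ≠ b := by rintro rfl; exact hyH hbH
    have hyt : y ≠ t := by rintro rfl; exact hyH htH
    have haX' : a ∉ X' := fun h => hba (hdgM a h b hbM e1.symm).2
    have hbX' : b ∉ X' := fun h => hba (hdgM b h a haM e1).1
    by_cases hyX' : y ∈ X'
    · refine ⟨y, hMS hyM, hyH, ?_, Or.inl ⟨hdgM y hyX' a haM hya.symm, hdgM y hyX' b hbM hyb.symm,
        hdgM y hyX' t htM hyt.symm⟩⟩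
      intro x hx hxv
      refine hdgM y hyX' x (hin x (hXH x hx) hxv) ?_
      rintro rfl
      exact hyH (hXH _ hx)
    · have tri : ∀ w ∈ M, w ∉ X' → w = a' ∨ w = b' ∨ w = c' := by
        intro w hw hwX
        rcases (hmem w).mp hw with h | h | h | h
        · exact Or.inl h
        · exact Or.inr (Or.inl h)
        · exact Or.inr (Or.inr h)
        · exact absurd h hwX
      have ta := tri a haM haX'
      have tb := tri b hbM hbX'
      have ty := tri y hyM hyX'
      obtain ⟨g1, g2, g3, g4, g5, g6⟩ := hH'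
      obtain ⟨q1, q2⟩ := tri_perm g3 g4 g5 hba e1 hya hyb ta tb ty
      have hinX' : ∀ w ∈ M, w ≠ a → w ≠ b → w ≠ y → w ∈ X' := by
        intro w hw w1 w2 w3
        by_contra hwX
        rcases tri_third e1 hya hyb ta tb ty (tri w hw hwX) with h | h | h
        · exact w1 h
        · exact w2 h
        · exact w3 h
      have htX' := hinX' t htM e3.symm e2.symm hyt.symm
      refine ⟨y, hMS hyM, hyH, ?_, Or.inr (Or.inr ⟨q1, q2, hdgM t htX' a haM e3,
        hdgM t htX' b hbM e2, hdgM t htX' y hyM hyt⟩)⟩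
      intro x hx hxv
      have hxM := hin x (hXH x hx) hxv
      have hxy : x ≠ y := by rintro rfl; exact hyH (hXH _ hx)
      have hxX2 := hinX' x hxM (by rintro rfl; exact n1 hx) (by rintro rfl; exact n2 hx) hxy
      exact (hdgM x hxX2 y hyM hxy.symm).symm

theorem stage2 [DecidableEq V] (hE : ∀ v, ¬ E v v) (hk : 8 ≤ k)
    (hcl : ∀ B ⊆ S, Bic E B → B.card ≤ k - 1) (hno : ¬ HasH E S k) {a b t : V}
    {X : Finset V} (hS : HS a b t X ⊆ S) (hH : IsH E (k - 1) a b t X)
    {y : V} (hyS : y ∈ S) (hyH : y ∉ HS a b t X) (hyX : ∀ x ∈ X, Dg E y x)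
    (hcase : (Dg E y a ∧ Dg E y b ∧ Dg E y t) ∨
        (∃ s, (s = a ∨ s = b) ∧ Dg E s t ∧ Dg E y s ∧ Dg E y t) ∨
        (E b y ∧ E y a ∧ Dg E t a ∧ Dg E t b ∧ Dg E t y)) : False := by
  obtain ⟨n1, n2, n3⟩ := hH.notMem hE
  obtain ⟨e1, e2, e3⟩ := hH.ne hE
  obtain ⟨c1, c2, c3, c4, c5, c6⟩ := hH
  have haS : a ∈ S := hS (mem_HS.mpr (Or.inl rfl))
  have hbS : b ∈ S := hS (mem_HS.mpr (Or.inr (Or.inl rfl)))
  have htS : t ∈ S := hS (mem_HS.mpr (Or.inr (Or.inr (Or.inl rfl))))
  have hXS : X ⊆ S := fun x hx => hS (mem_HS.mpr (Or.inr (Or.inr (Or.inr hx))))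
  have hyX' : y ∉ X := fun h => hyH (mem_HS.mpr (Or.inr (Or.inr (Or.inr h))))
  have hya : y ≠ a := by rintro rfl; exact hyH (mem_HS.mpr (Or.inl rfl))
  have hyb : y ≠ b := by rintro rfl; exact hyH (mem_HS.mpr (Or.inr (Or.inl rfl)))
  have hyt : y ≠ t := by rintro rfl; exact hyH (mem_HS.mpr (Or.inr (Or.inr (Or.inl rfl))))
  rcases hcase with ⟨d1, d2, d3⟩ | ⟨s, hs, d1, d2, d3⟩ | ⟨d1, d2, d3, d4, d5⟩
  · apply hno
    refine ⟨a, b, t, insert y X, haS, hbS, htS, Finset.insert_subset hyS hXS, ?_,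
      c2.insert hyX, c3, c4, c5, ?_⟩
    · rw [Finset.card_insert_of_notMem hyX']
      omega
    · intro x hx
      rcases Finset.mem_insert.mp hx with rfl | hx
      · exact ⟨d1.symm, d2.symm, d3.symm⟩
      · exact c6 x hx
  · have hsX : s ∉ X := by rcases hs with rfl | rfl <;> assumption
    have hst : s ≠ t := d1.ne hE
    have hsS : s ∈ S := by rcases hs with rfl | rfl <;> assumption
    have hsd : ∀ x ∈ X, Dg E s x := by
      intro x hx
      rcases hs with rfl | rfl
      · exact (c6 x hx).1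
      · exact (c6 x hx).2.1
    have hys : y ≠ s := d2.ne hE
    have b1 : Bic E (insert t X) := c2.insert fun x hx => (c6 x hx).2.2
    have b2 : Bic E (insert s (insert t X)) := b1.insert fun x hx => by
      rcases Finset.mem_insert.mp hx with rfl | hx
      · exact d1
      · exact hsd x hx
    have b3 : Bic E (insert y (insert s (insert t X))) := b2.insert fun x hx => by
      rcases Finset.mem_insert.mp hx with rfl | hx
      · exact d2
      · rcases Finset.mem_insert.mp hx with rfl | hx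
        · exact d3
        · exact hyX x hx
    have hcard := hcl _ (Finset.insert_subset hyS (Finset.insert_subset hsS
      (Finset.insert_subset htS hXS))) b3
    rw [Finset.card_insert_of_notMem (by simp [hys, hyt, hyX']),
      Finset.card_insert_of_notMem (by simp [hst, hsX]), Finset.card_insert_of_notMem n3] at hcard
    omega
  · apply hno
    refine ⟨a, b, y, insert t X, haS, hbS, hyS, Finset.insert_subset htS hXS, ?_,
      c2.insert fun x hx => (c6 x hx).2.2, c3, d1, d2, ?_⟩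
    · rw [Finset.card_insert_of_notMem n3]
      omega
    · intro x hx
      rcases Finset.mem_insert.mp hx with rfl | hx
      · exact ⟨d3.symm, d4.symm, d5.symm⟩
      · exact ⟨(c6 x hx).1, (c6 x hx).2.1, hyX x hx⟩

/-- the case where a copy of `H_{k-1}` exists -/
theorem caseA [DecidableEq V] (hE : ∀ v, ¬ E v v) (hk : 8 ≤ k) (hB : DgB E S k)
    (hcl : ∀ B ⊆ S, Bic E B → B.card ≤ k - 1) (hno : ¬ HasH E S k) {a b t : V}
    {X : Finset V} (hS : HS a b t X ⊆ S) (hH : IsH E (k - 1) a b t X) (hba : ¬ E b a) :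
    ∃ u ∈ S, ∃ v ∈ S, u ≠ v ∧ ∀ M, Mem E S (k - 1) M → u ∈ M → v ∈ M := by
  have hXS : X ⊆ S := fun x hx => hS (mem_HS.mpr (Or.inr (Or.inr (Or.inr hx))))
  have hXH : ∀ x ∈ X, x ∈ HS a b t X := fun x hx => mem_HS.mpr (Or.inr (Or.inr (Or.inr hx)))
  have h1 := hH.1
  obtain ⟨u, hu, v, hv, w, hw, huv, huw, hvw⟩ :=
    Finset.two_lt_card.mp (show 2 < X.card by omega)
  by_contra hcon
  push Not at hcon
  obtain ⟨M, hM, huM, hvM⟩ := hcon u (hXS hu) v (hXS hv) huv
  obtain ⟨M', hM', huM', hwM'⟩ := hcon u (hXS hu) w (hXS hw) huw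
  obtain ⟨y, hyS, hyH, hyX, hyc⟩ := stage1 hE hk hB hS hH hba hu hv hM huM hvM
  obtain ⟨y', hyS', hyH', hyX', hyc'⟩ := stage1 hE hk hB hS hH hba hu hw hM' huM' hwM'
  have hle := out_le_one (Q := {y, y'}) hE (by omega) hB hS hH hu (by
    intro q hq
    rw [Finset.mem_insert, Finset.mem_singleton] at hq
    rcases hq with rfl | rfl <;> assumption) (by
    intro q hq _
    rw [Finset.mem_insert, Finset.mem_singleton] at hq
    rcases hq with rfl | rfl
    · exact (hyX u hu huv).symm
    · exact (hyX' u hu huw).symm)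
  have hyy : y = y' := Finset.card_le_one.mp hle y (by simp [hyH]) y' (by simp [hyH'])
  subst hyy
  refine stage2 hE hk hcl hno hS hH hyS hyH ?_ hyc
  intro x hx
  by_cases hxv : x = v
  · subst hxv
    exact hyX' x hx hvw
  · exact hyX x hx hxv

/-- the case where all copies are bicliques -/
theorem caseB [DecidableEq V] (hk : 8 ≤ k) (hB : DgB E S k)
    (hcl : ∀ B ⊆ S, Bic E B → B.card ≤ k - 1)
    (hmem : ∀ M, Mem E S (k - 1) M → Bic E M ∧ M.card = k - 1)
    {p q : V} (hp : p ∈ S) (hq : q ∈ S) (hpq : p ≠ q) :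
    ∃ u ∈ S, ∃ v ∈ S, u ≠ v ∧ ∀ M, Mem E S (k - 1) M → u ∈ M → v ∈ M := by
  classical
  by_contra hcon
  push Not at hcon
  obtain ⟨K, hK, hpK, -⟩ := hcon p hp q hq hpq
  obtain ⟨hKB, hKc⟩ := hmem K hK
  have hKS := hK.1
  set Y := (S \ K).filter (fun y => Dg E p y) with hY
  have hYc : Y.card ≤ 2 := by
    have hd : Disjoint (K.erase p) Y := by
      rw [Finset.disjoint_left]
      intro w hw hwY
      rw [hY, Finset.mem_filter, Finset.mem_sdiff] at hwY
      exact hwY.1.2 (Finset.mem_of_mem_erase hw)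
    have h1 := hB p hp (K.erase p ∪ Y) (Finset.union_subset
      ((Finset.erase_subset _ _).trans hKS) ((Finset.filter_subset _ _).trans
        Finset.sdiff_subset)) (by
      intro w hw
      rcases Finset.mem_union.mp hw with h | h
      · rw [Finset.mem_erase] at h
        exact hKB.dg hpK h.2 h.1.symm
      · exact (Finset.mem_filter.mp h).2)
    rw [Finset.card_union_of_disjoint hd, Finset.card_erase_of_mem hpK] at h1
    omega
  set NN : V → Finset V := fun y => K.filter (fun x => ¬ Dg E y x) with hNN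
  have key : ∀ v ∈ K.erase p, ∃ y ∈ Y.filter (fun y => (NN y).card ≤ 2), v ∈ NN y := by
    intro v hv
    rw [Finset.mem_erase] at hv
    obtain ⟨M, hM, hpM, hvM⟩ := hcon p hp v (hKS hv.2) hv.1.symm
    obtain ⟨hMB, hMc⟩ := hmem M hM
    have hMS := hM.1
    have hMY : M \ K ⊆ Y := by
      intro m hm
      rw [Finset.mem_sdiff] at hm
      rw [hY, Finset.mem_filter, Finset.mem_sdiff]
      refine ⟨⟨hMS hm.1, hm.2⟩, hMB.dg hpM hm.1 ?_⟩
      rintro rfl
      exact hm.2 hpK
    have hKM : (K \ M).card ≤ 2 := by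
      rw [Finset.card_sdiff_comm (by rw [hKc, hMc])]
      exact (Finset.card_le_card hMY).trans hYc
    obtain ⟨y, hy, hyv⟩ : ∃ y ∈ M \ K, ¬ Dg E y v := by
      by_contra hc
      push Not at hc
      have h1 : Bic E (insert v M) := hMB.insert fun m hm => by
        by_cases hmK : m ∈ K
        · refine hKB.dg hv.2 hmK ?_
          rintro rfl
          exact hvM hm
        · exact (hc m (Finset.mem_sdiff.mpr ⟨hm, hmK⟩)).symm
      have h2 := hcl _ (Finset.insert_subset (hKS hv.2) hMS) h1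
      rw [Finset.card_insert_of_notMem hvM] at h2
      omega
    refine ⟨y, ?_, ?_⟩
    · rw [Finset.mem_filter]
      refine ⟨hMY hy, (Finset.card_le_card ?_).trans hKM⟩
      intro x hx
      rw [hNN, Finset.mem_filter] at hx
      rw [Finset.mem_sdiff]
      refine ⟨hx.1, fun hxM => hx.2 ?_⟩
      rw [Finset.mem_sdiff] at hy
      refine hMB.dg hy.1 hxM ?_
      rintro rfl
      exact hy.2 hx.1
    · rw [hNN, Finset.mem_filter]
      exact ⟨hv.2, hyv⟩
  have hsub : K.erase p ⊆ (Y.filter (fun y => (NN y).card ≤ 2)).biUnion NN := by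
    intro v hv
    rw [Finset.mem_biUnion]
    exact key v hv
  have h1 := Finset.card_le_card hsub
  have h2 : ((Y.filter (fun y => (NN y).card ≤ 2)).biUnion NN).card ≤
      (Y.filter (fun y => (NN y).card ≤ 2)).card * 2 :=
    Finset.card_biUnion_le_card_mul _ _ _ fun y hy => (Finset.mem_filter.mp hy).2
  have h3 := Finset.card_filter_le Y (fun y => (NN y).card ≤ 2)
  rw [Finset.card_erase_of_mem hpK] at h1
  omega

/-- There are `u ≠ v` such that all copies through `u` contain `v`. -/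
theorem exists_pair (hE : ∀ v, ¬ E v v) (hk : 8 ≤ k) (hB : DgB E S k)
    (hcl : ∀ B ⊆ S, Bic E B → B.card ≤ k - 1) (hno : ¬ HasH E S k)
    {p q : V} (hp : p ∈ S) (hq : q ∈ S) (hpq : p ≠ q) :
    ∃ u ∈ S, ∃ v ∈ S, u ≠ v ∧ ∀ M, Mem E S (k - 1) M → u ∈ M → v ∈ M := by
  classical
  by_cases hex : ∃ (a b c : V) (X : Finset V), HS a b c X ⊆ S ∧ IsH E (k - 1) a b c X
  · obtain ⟨a, b, c, X, hS, hH⟩ := hex
    have hS1 : HS b c a X ⊆ S := by
      intro w hw
      apply hS
      rw [mem_HS] at hw ⊢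
      tauto
    have hS2 : HS c a b X ⊆ S := by
      intro w hw
      apply hS
      rw [mem_HS] at hw ⊢
      tauto
    by_cases h1 : E b a
    · by_cases h2 : E c b
      · by_cases h3 : E a c
        · exfalso
          obtain ⟨c1, c2, c3, c4, c5, c6⟩ := hH
          have b1 : Bic E (insert c X) := c2.insert fun x hx => (c6 x hx).2.2
          have b2 : Bic E (insert b (insert c X)) := b1.insert fun x hx => by
            rcases Finset.mem_insert.mp hx with rfl | hx
            · exact ⟨c4, h2⟩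
            · exact (c6 x hx).2.1
          have b3 : Bic E (HS a b c X) := b2.insert fun x hx => by
            rcases Finset.mem_insert.mp hx with rfl | hx
            · exact ⟨c3, h1⟩
            · rcases Finset.mem_insert.mp hx with rfl | hx
              · exact ⟨h3, c5⟩
              · exact (c6 x hx).1
          have h4 := hcl _ hS b3
          rw [card_HS hE ⟨c1, c2, c3, c4, c5, c6⟩] at h4
          omega
        · exact caseA hE hk hB hcl hno hS2 hH.rot.rot h3
      · exact caseA hE hk hB hcl hno hS1 hH.rot h2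
    · exact caseA hE hk hB hcl hno hS hH h1
  · push Not at hex
    refine caseB hk hB hcl ?_ hp hq hpq
    rintro M ⟨hMS, h | ⟨a, b, c, X, hH, hmem⟩⟩
    · exact h
    · exact absurd hH (hex a b c X fun w hw => hMS ((hmem w).mpr (mem_HS.mp hw)))

end cops

/-! ### the reduction -/

section final

variable {E : V → V → Prop}

theorem sqrt_le_iff' {x y : ℕ} {k : ℕ} :
    Real.sqrt ((x : ℝ) * (y : ℝ)) ≤ k ↔ x * y ≤ k ^ 2 := by
  rw [Real.sqrt_le_iff]
  constructor
  · rintro ⟨-, h⟩
    exact_mod_cast h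
  · intro h
    exact ⟨Nat.cast_nonneg k, by exact_mod_cast h⟩

theorem Bad.mono {S T : Finset V} {k : ℕ} (h : Bad E S k) (hTS : T ⊆ S)
    (hT : ¬ Dicol E T (k - 1)) : Bad E T k := by
  classical
  obtain ⟨h1, h2, h3, -⟩ := h
  refine ⟨?_, fun B hB => h2 B (hB.trans hTS), ?_, hT⟩
  · intro v hv
    have h5 := sqrt_le_iff'.mp (h1 v (hTS hv))
    rw [sqrt_le_iff']
    refine (Nat.mul_le_mul ?_ ?_).trans h5
    · exact Finset.card_le_card (Finset.filter_subset_filter _ hTS)
    · exact Finset.card_le_card (Finset.filter_subset_filter _ hTS)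
  · rintro ⟨a, b, c, X, ha, hb, hc, hX, hH⟩
    exact h3 ⟨a, b, c, X, hTS ha, hTS hb, hTS hc, hX.trans hTS, hH⟩

theorem Bad.dgB {S : Finset V} {k : ℕ} (h : Bad E S k) : DgB E S k := by
  classical
  intro u hu B hBS hB
  have h1 := sqrt_le_iff'.mp (h.1 u hu)
  have h2 : B.card ≤ outdeg E S u := Finset.card_le_card fun b hb =>
    Finset.mem_filter.mpr ⟨hBS hb, (hB b hb).1⟩
  have h3 : B.card ≤ indeg E S u := Finset.card_le_card fun b hb =>
    Finset.mem_filter.mpr ⟨hBS hb, (hB b hb).2⟩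
  have h4 : B.card * B.card ≤ k * k := by
    calc B.card * B.card ≤ outdeg E S u * indeg E S u := Nat.mul_le_mul h2 h3
      _ ≤ k ^ 2 := h1
      _ = k * k := sq k
  exact Nat.mul_self_le_mul_self_iff.mp h4

theorem exists_critical {S : Finset V} {m : ℕ} (h : ¬ Dicol E S m) :
    ∃ T ⊆ S, ¬ Dicol E T m ∧ ∀ u ∈ T, ∀ U ⊆ T, u ∉ U → Dicol E U m := by
  classical
  obtain ⟨T, hT, hmin⟩ := Finset.exists_min_image (S.powerset.filter (fun T => ¬ Dicol E T m))
    Finset.card ⟨S, by simp [h]⟩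
  rw [Finset.mem_filter, Finset.mem_powerset] at hT
  refine ⟨T, hT.1, hT.2, ?_⟩
  intro u hu U hU huU
  by_contra hcon
  have h1 := hmin U (by
    rw [Finset.mem_filter, Finset.mem_powerset]
    exact ⟨hU.trans hT.1, hcon⟩)
  have h2 : U ⊂ T := by
    rw [Finset.ssubset_iff_of_subset hU]
    exact ⟨u, hu, huU⟩
  exact absurd (Finset.card_lt_card h2) (by omega)

/-- Maximal acyclic sets. -/
theorem exists_maxAcyc {S A : Finset V} (hAS : A ⊆ S) (hA : Acyc E A) :
    ∃ A' : Finset V, A ⊆ A' ∧ A' ⊆ S ∧ Acyc E A' ∧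
      ∀ A'' : Finset V, A' ⊆ A'' → A'' ⊆ S → Acyc E A'' → A'' = A' := by
  classical
  obtain ⟨T, hT, hmax⟩ := Finset.exists_max_image
    (S.powerset.filter (fun T => A ⊆ T ∧ Acyc E T)) Finset.card ⟨A, by simp [hAS, hA]⟩
  rw [Finset.mem_filter, Finset.mem_powerset] at hT
  refine ⟨T, hT.2.1, hT.1, hT.2.2, ?_⟩
  intro A'' h1 h2 h3
  have h4 := hmax A'' (by
    rw [Finset.mem_filter, Finset.mem_powerset]
    exact ⟨h2, hT.2.1.trans h1, h3⟩)
  exact (Finset.eq_of_subset_of_card_le h1 h4).symm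

theorem arith {x y k : ℕ} (hk : 1 ≤ k) (h : x * y ≤ k ^ 2) (hx : 1 ≤ x) (hy : 1 ≤ y) :
    (x - 1) * (y - 1) ≤ (k - 1) ^ 2 := by
  obtain ⟨x, rfl⟩ := Nat.exists_eq_add_of_le' hx
  obtain ⟨y, rfl⟩ := Nat.exists_eq_add_of_le' hy
  obtain ⟨k, rfl⟩ := Nat.exists_eq_add_of_le' hk
  simp only [Nat.add_sub_cancel]
  by_contra hcon
  push Not at hcon
  have h1 : k ^ 2 < x * y := hcon
  have h2 : x + y ≤ 2 * k := by nlinarith
  zify at h1 h2
  nlinarith [sq_nonneg ((x : ℤ) - y)]

/-- One step: a counterexample for `k` contains one for `k - 1`. -/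
theorem step (hE : ∀ v, ¬ E v v) {S : Finset V} {k : ℕ} (hk : 8 ≤ k) (h : Bad E S k) :
    ∃ T ⊆ S, Bad E T (k - 1) := by
  classical
  obtain ⟨T, hTS, hT, hcrit⟩ := exists_critical h.2.2.2
  have hb := h.mono hTS hT
  have hB : DgB E T k := hb.dgB
  obtain ⟨hdeg, hcl, hno, -⟩ := hb
  -- two vertices
  obtain ⟨p, hp⟩ : T.Nonempty := by
    rw [Finset.nonempty_iff_ne_empty]
    rintro rfl
    exact hT (dicol_empty _)
  obtain ⟨q, hq, hqp⟩ : ∃ q ∈ T, q ≠ p := by
    by_contra hcon
    push Not at hcon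
    have h1 : Acyc E ({p} : Finset V) := by
      have := acyc_insert_out (E := E) hE acyc_empty (v := p)
        (fun w hw => absurd hw (Finset.notMem_empty w))
      simpa using this
    have h2 : Dicol E T (0 + 1) := (dicol_empty (E := E) 0).add h1 fun v hv =>
      Or.inr (Finset.mem_singleton.mpr (hcon v hv))
    exact hT (h2.le (by omega))
  obtain ⟨u, hu, v, hv, huv, hall⟩ := exists_pair hE hk hB hcl hno hp hq hqp.symm
  obtain ⟨f, hf1, hf2⟩ := hcrit u hu (T.erase u) (Finset.erase_subset _ _)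
    (Finset.notMem_erase _ _)
  have hvT : v ∈ T.erase u := Finset.mem_erase.mpr ⟨huv.symm, hv⟩
  set A := (T.erase u).filter (fun w => f w = f v) with hA
  have hAac : Acyc E A := hf2 (f v) A fun w hw => Finset.mem_filter.mp hw
  have hAmeet : ∀ M, Mem E T (k - 1) M → ∃ w ∈ M, w ∈ A := by
    intro M hM
    by_cases huM : u ∈ M
    · exact ⟨v, hall M hM huM, Finset.mem_filter.mpr ⟨hvT, rfl⟩⟩
    · have hM' : Mem E (T.erase u) (k - 1) M := by
        refine ⟨fun w hw => Finset.mem_erase.mpr ⟨?_, hM.1 hw⟩, hM.2⟩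
        rintro rfl
        exact huM hw
      obtain ⟨w, hw, hwf⟩ := mem_meets hf1 hf2 hM' (hf1 v hvT)
      exact ⟨w, hw, Finset.mem_filter.mpr ⟨hM'.1 hw, hwf⟩⟩
  obtain ⟨A', hAA', hA'T, hA'ac, hA'max⟩ := exists_maxAcyc
    ((Finset.filter_subset _ _).trans (Finset.erase_subset _ _) : A ⊆ T) hAac
  have hmeet : ∀ M, Mem E T (k - 1) M → ∃ w ∈ M, w ∈ A' := fun M hM => by
    obtain ⟨w, h1, h2⟩ := hAmeet M hM
    exact ⟨w, h1, hAA' h2⟩
  refine ⟨T \ A', Finset.sdiff_subset.trans hTS, ?_, ?_, ?_, ?_⟩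
  · -- degrees
    intro w hw
    rw [Finset.mem_sdiff] at hw
    rw [sqrt_le_iff']
    have hins : ¬ Acyc E (insert w A') := by
      intro hc
      have h1 := hA'max _ (Finset.subset_insert _ _) (Finset.insert_subset hw.1 hA'T) hc
      exact hw.2 (h1 ▸ Finset.mem_insert_self w A')
    have ho : ∃ z ∈ A', E w z := by
      by_contra hc
      push Not at hc
      exact hins (acyc_insert_out hE hA'ac hc)
    have hi : ∃ z ∈ A', E z w := by
      by_contra hc
      push Not at hc
      exact hins (acyc_insert_in hE hA'ac hc)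
    obtain ⟨z, hz, hzE⟩ := ho
    obtain ⟨z', hz', hzE'⟩ := hi
    have h1 : outdeg E (T \ A') w + 1 ≤ outdeg E T w := by
      have : (T \ A').filter (fun x => E w x) ⊂ T.filter (fun x => E w x) := by
        rw [Finset.ssubset_iff_of_subset (Finset.filter_subset_filter _ Finset.sdiff_subset)]
        refine ⟨z, Finset.mem_filter.mpr ⟨hA'T hz, hzE⟩, ?_⟩
        intro hc
        exact (Finset.mem_sdiff.mp (Finset.mem_filter.mp hc).1).2 hz
      exact Finset.card_lt_card this
    have h2 : indeg E (T \ A') w + 1 ≤ indeg E T w := by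
      have : (T \ A').filter (fun x => E x w) ⊂ T.filter (fun x => E x w) := by
        rw [Finset.ssubset_iff_of_subset (Finset.filter_subset_filter _ Finset.sdiff_subset)]
        refine ⟨z', Finset.mem_filter.mpr ⟨hA'T hz', hzE'⟩, ?_⟩
        intro hc
        exact (Finset.mem_sdiff.mp (Finset.mem_filter.mp hc).1).2 hz'
      exact Finset.card_lt_card this
    have h3 := sqrt_le_iff'.mp (hdeg w hw.1)
    have h4 := arith (by omega) h3 (by omega) (by omega)
    exact (Nat.mul_le_mul (by omega) (by omega)).trans h4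
  · -- bicliques
    intro B hBT hBic
    by_contra hcon
    push Not at hcon
    obtain ⟨B', hB'B, hB'c⟩ := Finset.exists_subset_card_eq (show k - 1 ≤ B.card by omega)
    have hB' : Mem E T (k - 1) B' := ⟨(hB'B.trans hBT).trans Finset.sdiff_subset,
      Or.inl ⟨fun x hx y hy hxy => hBic x (hB'B hx) y (hB'B hy) hxy, hB'c⟩⟩
    obtain ⟨w, hw, hwA⟩ := hmeet B' hB'
    exact (Finset.mem_sdiff.mp (hBT (hB'B hw))).2 hwA
  · -- copies of `H`
    rintro ⟨a, b, c, X, ha, hb, hc, hX, hH⟩
    have hM : Mem E T (k - 1) (HS a b c X) := by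
      refine ⟨?_, Or.inr ⟨a, b, c, X, hH, fun w => mem_HS⟩⟩
      intro w hw
      rcases mem_HS.mp hw with rfl | rfl | rfl | h
      · exact (Finset.mem_sdiff.mp ha).1
      · exact (Finset.mem_sdiff.mp hb).1
      · exact (Finset.mem_sdiff.mp hc).1
      · exact (Finset.mem_sdiff.mp (hX h)).1
    obtain ⟨w, hw, hwA⟩ := hmeet _ hM
    rcases mem_HS.mp hw with rfl | rfl | rfl | h
    · exact (Finset.mem_sdiff.mp ha).2 hwA
    · exact (Finset.mem_sdiff.mp hb).2 hwA
    · exact (Finset.mem_sdiff.mp hc).2 hwA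
    · exact (Finset.mem_sdiff.mp (hX h)).2 hwA
  · -- colourings
    intro hc
    apply hT
    have h1 : Dicol E T (k - 1 - 1 + 1) := hc.add hA'ac fun w hw => by
      by_cases hwA : w ∈ A'
      · exact Or.inr hwA
      · exact Or.inl (Finset.mem_sdiff.mpr ⟨hw, hwA⟩)
    exact h1.le (by omega)

theorem reduce (hE : ∀ v, ¬ E v v) (m : ℕ) (hm : 7 ≤ m) :
    ∀ (k : ℕ) (S : Finset V), m ≤ k → Bad E S k → ∃ T ⊆ S, Bad E T m := by
  intro k S hmk
  induction k, hmk using Nat.le_induction generalizing S with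
  | base => exact fun h => ⟨S, Finset.Subset.refl S, h⟩
  | succ k hmk ih =>
    intro h
    obtain ⟨T, hTS, hT⟩ := step hE (by omega) h
    rw [Nat.add_sub_cancel] at hT
    obtain ⟨U, hUT, hU⟩ := ih T hT
    exact ⟨U, hUT.trans hTS, hU⟩

end final

/-- **Theorem.** (1) Let `9 ≤ Δ` (indeed `7 ≤ m ≤ Δ`). Every counterexample to Q1 with the
parameter `Δ` contains, as an induced subdigraph, a counterexample with the parameter `m`.
(2) Hence, for every hereditary class of digraphs, the assertion of Q1 with the parameter nine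
implies it with every parameter `Δ ≥ 9`. -/
theorem result :
    (∀ (V : Type) (E : V → V → Prop) (S : Finset V) (m k : ℕ), (∀ v, ¬ E v v) → 7 ≤ m → m ≤ k →
      Bad E S k → ∃ T ⊆ S, Bad E T m) ∧
    (∀ P : (V : Type) → (V → V → Prop) → Finset V → Prop,
      (∀ (V : Type) (E : V → V → Prop) (S T : Finset V), P V E S → T ⊆ S → P V E T) →
      Q1 P 9 → ∀ k : ℕ, 9 ≤ k → Q1 P k) := by
  refine ⟨fun V E S m k hE hm hmk h => reduce hE m hm k S hmk h, ?_⟩
  intro P hP h9 k hk V E S hE hPS h1 h2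
  by_contra hcon
  push Not at hcon
  obtain ⟨T, hTS, hT⟩ := reduce hE 9 (by norm_num) k S hk ⟨h1, h2, hcon.2, hcon.1⟩
  obtain ⟨t1, t2, t3, t4⟩ := hT
  rcases h9 V E T hE (hP V E S T hPS hTS) t1 t2 with h | h
  · exact t4 h
  · exact t3 h

end Pool.Agent.Results.MP_ee37cd_co.Reduction
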