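import Pool.Agent.Lib.MP_ee37cd_co.SB

/-!
# MP_ee37cd_co: Q1 holds for biclique number at most (Delta - 1) / 2

A finite digraph is given by a finite set `S` of vertices of a type `V` and a relation `E` on `V`
without loops: its arcs are the pairs `(a, b)`, `a, b ∈ S`, with `E a b`.
-/

set_option autoImplicit false

namespace Pool.Agent.Results.MP_ee37cd_co.SmallBiclique

open Finset
open scoped Classical

/-- The number of out-neighbours of `v` in the digraph with vertex set `S`. -/
noncomputable def outdeg {V : Type} (E : V → V → Prop) (S : Finset V) (v : V) : ℕ :=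
  (S.filter (fun w => E v w)).card

/-- The number of in-neighbours of `v` in the digraph with vertex set `S`. -/
noncomputable def indeg {V : Type} (E : V → V → Prop) (S : Finset V) (v : V) : ℕ :=
  (S.filter (fun w => E w v)).card

/-- The digraph induced on `A` has no directed cycle (no nontrivial closed walk). -/
def Acyc {V : Type} (E : V → V → Prop) (A : Finset V) : Prop :=
  ∀ v, ¬ Relation.TransGen (fun a b => E a b ∧ a ∈ A ∧ b ∈ A) v v

/-- The digraph induced on `S` has a dicolouring with `k` colours. -/
def Dicol {V : Type} (E : V → V → Prop) (S : Finset V) (k : ℕ) : Prop :=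
  ∃ f : V → ℕ, (∀ v ∈ S, f v < k) ∧
    ∀ i : ℕ, ∀ A : Finset V, (∀ v ∈ A, v ∈ S ∧ f v = i) → Acyc E A

/-- `B` is a biclique. -/
def Bic {V : Type} (E : V → V → Prop) (B : Finset V) : Prop := ∀ a ∈ B, ∀ b ∈ B, a ≠ b → E a b

/-- For every `D ≥ 17` the assertion of Q1 holds for all digraphs whose biclique number is at most
`(D - 1) / 2`: they have a dicolouring with `D - 1` colours. -/
theorem result (D : ℕ) (hD : 17 ≤ D) (V : Type) (E : V → V → Prop) (S : Finset V)
    (hE : ∀ v, ¬ E v v)
    (hdeg : ∀ v ∈ S, Real.sqrt ((outdeg E S v : ℝ) * (indeg E S v : ℝ)) ≤ D)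
    (hbic : ∀ B ⊆ S, Bic E B → 2 * B.card + 1 ≤ D) : Dicol E S (D - 1) := by
  refine Lib.MP_ee37cd_co.BK.smallBiclique_main hE D hD S.card S rfl ?_ hbic
  intro v hv
  have h7 := hdeg v hv
  rw [Real.sqrt_le_left (by positivity)] at h7
  exact_mod_cast h7

end Pool.Agent.Results.MP_ee37cd_co.SmallBiclique
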