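import Pool.Agent.Lib.MP_ee37cd_co.Asm
import Pool.Agent.Lib.MP_ee37cd_co.BR

/-!
# MP_ee37cd_co: Q1 holds for all digraphs without a vertex with both degrees equal to Delta

A finite digraph is given by a finite set `S` of vertices of a type `V` and a relation `E` on `V`
without loops: its arcs are the pairs `(a, b)`, `a, b ∈ S`, with `E a b`.
-/

set_option autoImplicit false

namespace Pool.Agent.Results.MP_ee37cd_co.Unbalanced

open Finset
open scoped Classical

/-- The number of out-neighbours of `v` in the digraph with vertex set `S`. -/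
noncomputable def outdeg {V : Type} (E : V → V → Prop) (S : Finset V) (v : V) : ℕ :=
  (S.filter (fun w => E v w)).card

/-- The number of in-neighbours of `v` in the digraph with vertex set `S`. -/
noncomputable def indeg {V : Type} (E : V → V → Prop) (S : Finset V) (v : V) : ℕ :=
  (S.filter (fun w => E w v)).card

/-- The digraph induced on `A` has no directed cycle (no nontrivial closed walk). -/
def Acyc {V : Type} (E : V → V → Prop) (A : Finset V) : Prop :=
  ∀ v, ¬ Relation.TransGen (fun a b => E a b ∧ a ∈ A ∧ b ∈ A) v v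

/-- The digraph induced on `S` has a dicolouring with `k` colours. -/
def Dicol {V : Type} (E : V → V → Prop) (S : Finset V) (k : ℕ) : Prop :=
  ∃ f : V → ℕ, (∀ v ∈ S, f v < k) ∧
    ∀ i : ℕ, ∀ A : Finset V, (∀ v ∈ A, v ∈ S ∧ f v = i) → Acyc E A

/-- `B` is a biclique. -/
def Bic {V : Type} (E : V → V → Prop) (B : Finset V) : Prop := ∀ a ∈ B, ∀ b ∈ B, a ≠ b → E a b

/-- Both arcs between `a` and `b` are present. -/
def Dg {V : Type} (E : V → V → Prop) (a b : V) : Prop := E a b ∧ E b a

/-- `a, b, c` and `X` form a copy of `H_k`: a directed triangle completely joined to a biclique with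
`k - 2` vertices. -/
def IsH {V : Type} (E : V → V → Prop) (k : ℕ) (a b c : V) (X : Finset V) : Prop :=
  X.card + 2 = k ∧ Bic E X ∧ E a b ∧ E b c ∧ E c a ∧ ∀ x ∈ X, Dg E a x ∧ Dg E b x ∧ Dg E c x

/-- The digraph induced on `S` contains `H_k`. -/
def HasH {V : Type} (E : V → V → Prop) (S : Finset V) (k : ℕ) : Prop :=
  ∃ (a b c : V) (X : Finset V), a ∈ S ∧ b ∈ S ∧ c ∈ S ∧ X ⊆ S ∧ IsH E k a b c X

/-- The assertion of Q1 for every `D ≥ 9` and every digraph in which no vertex has in-degree and
out-degree both equal to `D`. -/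
theorem result (D : ℕ) (hD : 9 ≤ D) (V : Type) (E : V → V → Prop) (S : Finset V)
    (hE : ∀ v, ¬ E v v)
    (hdeg : ∀ v ∈ S, Real.sqrt ((outdeg E S v : ℝ) * (indeg E S v : ℝ)) ≤ D)
    (hbic : ∀ B ⊆ S, Bic E B → B.card ≤ D - 1)
    (hno : ∀ v ∈ S, ¬ (outdeg E S v = D ∧ indeg E S v = D)) :
    Dicol E S (D - 1) ∨ HasH E S D := by
  by_contra hcon
  push Not at hcon
  obtain ⟨T, G, hT, h1, h2, h3⟩ := Lib.MP_ee37cd_co.BK.tr V E S D hD hE
    ⟨hdeg, hbic, hcon.2, hcon.1⟩
  apply h3
  refine Lib.MP_ee37cd_co.BK.s_BR V T G (D - 1) (by omega) ?_ h2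
  intro v hv
  obtain ⟨h4, h5⟩ := h1 v hv
  by_contra h6
  push Not at h6
  have h4' : D ≤ outdeg E S v := le_trans (by omega) h4
  have h5' : D ≤ indeg E S v := le_trans (by omega) h5
  have h7 := hdeg v (hT hv)
  rw [Real.sqrt_le_left (by positivity)] at h7
  have h8 : outdeg E S v * indeg E S v ≤ D ^ 2 := by exact_mod_cast h7
  refine hno v (hT hv) ⟨?_, ?_⟩
  · refine le_antisymm ?_ h4'
    by_contra h9
    push Not at h9
    nlinarith
  · refine le_antisymm ?_ h5'
    by_contra h9
    push Not at h9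
    nlinarith

end Pool.Agent.Results.MP_ee37cd_co.Unbalanced
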